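import Pool.Agent.Helper18.BI.S5.StA
import Pool.Agent.Helper18.BI.R.M_HCL

/-!
# Project BI, stage 5: module EX, every square has a class
-/

set_option autoImplicit false

open scoped Manifold ContDiff Topology ComplexConjugate
open Set Pool.Agent.Helper65.Barb Pool.Agent.Helper18.BI
open Pool.Agent.Helper70.BI (I4 IsW MW NearEq)
open Pool.Agent.Helper27.H (ArcD FingOk HatOk K3)
open Pool.Agent.Helper18.BI.H
open Pool.Agent.Helper18.BI.R

namespace Pool.Agent.Helper18.BI.S5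

namespace EX

/-- gluing two functions, continuous on the box, along a hyperplane -/
private theorem glue_cont {B : Set (ℝ × ℝ × ℝ)} {f g : ℝ × ℝ × ℝ → R4} {p : ℝ × ℝ × ℝ → ℝ}
    (hp : Continuous p) (hf : ContinuousOn f (B ∩ {z | p z ≤ 1 / 2}))
    (hg : ContinuousOn g (B ∩ {z | 1 / 2 ≤ p z}))
    (he : ∀ z ∈ B, p z = 1 / 2 → f z = g z) :
    ContinuousOn (fun z => open Classical in if p z ≤ 1 / 2 then f z else g z) B := by
  classical
  intro z hz
  rcases lt_trichotomy (p z) (1 / 2) with h | h | h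
  · have hn : ∀ᶠ w in 𝓝 z, p w < 1 / 2 := hp.continuousAt.eventually (gt_mem_nhds h)
    have hc : ContinuousWithinAt f B z := by
      refine (hf z ⟨hz, h.le⟩).mono_of_mem_nhdsWithin ?_
      filter_upwards [self_mem_nhdsWithin, mem_nhdsWithin_of_mem_nhds hn] with w hw1 hw2
      exact ⟨hw1, hw2.le⟩
    refine hc.congr_of_eventuallyEq ?_ (if_pos h.le)
    filter_upwards [mem_nhdsWithin_of_mem_nhds hn] with w hw
    exact if_pos hw.le
  · have h1 : ContinuousWithinAt (fun z => open Classical in if p z ≤ 1 / 2 then f z else g z)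
        (B ∩ {z | p z ≤ 1 / 2}) z :=
      (hf z ⟨hz, h.le⟩).congr (fun w hw => if_pos hw.2) (if_pos h.le)
    have h2 : ContinuousWithinAt (fun z => open Classical in if p z ≤ 1 / 2 then f z else g z)
        (B ∩ {z | 1 / 2 ≤ p z}) z := by
      refine (hg z ⟨hz, h.ge⟩).congr (fun w hw => ?_) ?_
      · by_cases h' : p w ≤ 1 / 2
        · have : p w = 1 / 2 := le_antisymm h' hw.2
          simp only [h', if_true]
          exact he w hw.1 this
        · simp only [h', if_false]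
      · simp only [h, le_refl, if_true]
        exact he z hz h
    refine (h1.union h2).mono fun w hw => ?_
    rcases le_total (p w) (1 / 2) with h' | h'
    · exact Or.inl ⟨hw, h'⟩
    · exact Or.inr ⟨hw, h'⟩
  · have hn : ∀ᶠ w in 𝓝 z, 1 / 2 < p w := hp.continuousAt.eventually (lt_mem_nhds h)
    have hc : ContinuousWithinAt g B z := by
      refine (hg z ⟨hz, h.le⟩).mono_of_mem_nhdsWithin ?_
      filter_upwards [self_mem_nhdsWithin, mem_nhdsWithin_of_mem_nhds hn] with w hw1 hw2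
      exact ⟨hw1, hw2.le⟩
    refine hc.congr_of_eventuallyEq ?_ (if_neg (not_le.2 h))
    filter_upwards [mem_nhdsWithin_of_mem_nhds hn] with w hw
    exact if_neg (not_le.2 hw)

private theorem sh_trans {D : ArcD} {f g k : ℝ → ℝ → R4} (h : SH D f g) (h' : SH D g k) :
    SH D f k := by
  classical
  obtain ⟨H, hc, he, hb⟩ := h
  obtain ⟨H', hc', he', hb'⟩ := h'
  refine ⟨fun z => if z.1 ≤ 1 / 2 then H (2 * z.1, z.2.1, z.2.2)
    else H' (2 * z.1 - 1, z.2.1, z.2.2), ?_, fun q hq s hs => ?_, fun u hu q hq s hs => ?_⟩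
  · have := glue_cont (B := Icc (0 : ℝ) 1 ×ˢ (Icc (0 : ℝ) 1 ×ˢ Icc D.m₀ D.m₁))
      (f := fun z => H (2 * z.1, z.2.1, z.2.2)) (g := fun z => H' (2 * z.1 - 1, z.2.1, z.2.2))
      (p := fun z => z.1) (by fun_prop) ?_ ?_ ?_
    · exact this
    · refine hc.comp (Continuous.continuousOn (by fun_prop)) ?_
      rintro ⟨u, q, s⟩ ⟨⟨⟨h1, h2⟩, hq, hs⟩, h3⟩
      simp only [mem_ofPred_eq] at h1 h2 h3
      exact ⟨⟨by simp only; linarith, by simp only; linarith⟩, hq, hs⟩
    · refine hc'.comp (Continuous.continuousOn (by fun_prop)) ?_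
      rintro ⟨u, q, s⟩ ⟨⟨⟨h1, h2⟩, hq, hs⟩, h3⟩
      simp only [mem_ofPred_eq] at h1 h2 h3
      exact ⟨⟨by simp only; linarith, by simp only; linarith⟩, hq, hs⟩
    · rintro ⟨u, q, s⟩ ⟨-, hq, hs⟩ h3
      simp only at h3
      subst h3
      have e1 : (2 : ℝ) * (1 / 2) = 1 := by norm_num
      have e2 : (2 : ℝ) * (1 / 2) - 1 = 0 := by norm_num
      simp only [e1, sub_self]
      rw [(he q hq s hs).2, (he' q hq s hs).1]
  · have e1 : ¬ ((1 : ℝ) ≤ 1 / 2) := by norm_num
    have e2 : (0 : ℝ) ≤ 1 / 2 := by norm_num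
    have e3 : (2 : ℝ) * 1 - 1 = 1 := by norm_num
    simp only [e1, e2, e3, if_true, if_false, mul_zero]
    exact ⟨(he q hq s hs).1, (he' q hq s hs).2⟩
  · by_cases h : u ≤ 1 / 2
    · simp only [h, if_true]
      exact hb (2 * u) ⟨by linarith [hu.1], by linarith⟩ q hq s hs
    · simp only [h, if_false]
      exact hb' (2 * u - 1) ⟨by linarith [not_le.1 h], by linarith [hu.2]⟩ q hq s hs

end EX

/-- every square has a class -/
theorem m_EX (hSQS : StSQS) (hGP1 : StGP1) (hCls : Pool.Agent.Helper27.H.StCls) : StEX := by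
  intro D y₀ f hf
  obtain ⟨c₀, hc₀, hs₀⟩ := hSQS D _ hf
  obtain ⟨c, hc, hemb, hs⟩ := hGP1 D c₀ hc₀
  have hH : D.Htpy (fun z : ℝ × ℝ × ℝ => c z.2.1 z.2.2) :=
    { smooth := hc.smooth.comp contDiff_snd
      froz := fun _ _ q hq s h => hc.froz q hq s h
      inU := fun _ _ q hq s h => hc.inU q hq s h
      start := fun _ _ s => hc.start s
      stop := fun _ _ s => hc.stop s }
  obtain ⟨χ, hχ⟩ := (hCls D).2.2.2.1 _ hH 0 ⟨le_refl 0, zero_le_one⟩
    (fun q hq => ⟨(hemb q hq).2, (hemb q hq).1⟩)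
  exact ⟨χ, c, hc, hχ, EX.sh_trans hs hs₀⟩

end Pool.Agent.Helper18.BI.S5
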